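import Pool.Agent.Lib.Helper86.FlagSphere.Defs

/-!
# From a transverse sphere of full flags to an equivariant map `S^n → GL_d(ℝ)`

`exists_equivariant_of_transverseSphere`: a transverse `n`-sphere in `Flag(ℝ^d)` (`n, d ≥ 2`) gives
a symmetric involution `w` of trace `0` or `±1` and a continuous `Φ : S^n → GL_d(ℝ)` with
`Φ (-y) = w Φ y`.
-/

namespace Pool.Agent.Helper4.FlagSphere

open Module Metric Set Filter Topology
open scoped RealInnerProductSpace
open Pool.Agent.Helper86.FlagSphere

/-! ## Oblique projections -/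

section Oblique

variable {W : Type*} [NormedAddCommGroup W] [InnerProductSpace ℝ W] [FiniteDimensional ℝ W]

lemma isUnit_one_sub {A B : Submodule ℝ W} (h : A ⊓ B = ⊥) :
    IsUnit (1 - B.starProjection * A.starProjection : W →L[ℝ] W) := by
  have : CompleteSpace W := FiniteDimensional.complete ℝ W
  rw [ContinuousLinearMap.isUnit_iff_bijective]
  have hinj : Function.Injective ⇑(1 - B.starProjection * A.starProjection : W →L[ℝ] W) := by
    rw [injective_iff_map_eq_zero]
    intro x hx
    have hx' : B.starProjection (A.starProjection x) = x := by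
      have : x - B.starProjection (A.starProjection x) = 0 := by simpa using hx
      exact (sub_eq_zero.mp this).symm
    have hxB : x ∈ B := by rw [← hx']; exact B.starProjection_apply_mem _
    have hn : ‖A.starProjection x‖ = ‖x‖ := by
      apply le_antisymm (A.norm_starProjection_apply_le x)
      calc ‖x‖ = ‖B.starProjection (A.starProjection x)‖ := by rw [hx']
        _ ≤ _ := B.norm_starProjection_apply_le _
    have hxA : x ∈ A := (Submodule.mem_iff_norm_starProjection A x).mpr hn
    have : x ∈ A ⊓ B := ⟨hxA, hxB⟩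
    rw [h] at this
    exact (Submodule.mem_bot ℝ).mp this
  refine ⟨hinj, ?_⟩
  exact LinearMap.surjective_of_injective
    (f := (1 - B.starProjection * A.starProjection : W →L[ℝ] W).toLinearMap) hinj

/-- The projection onto `A` along `B`, written with orthogonal projections. -/
noncomputable def obl (A B : Submodule ℝ W) : W →L[ℝ] W :=
  Ring.inverse (1 - B.starProjection * A.starProjection) * (1 - B.starProjection)

lemma obl_spec {A B : Submodule ℝ W} (h : A ⊓ B = ⊥)
    (hd : finrank ℝ W ≤ finrank ℝ A + finrank ℝ B) (x : W) :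
    obl A B x ∈ A ∧ x - obl A B x ∈ B := by
  have hu := isUnit_one_sub h
  have htop : A ⊔ B = ⊤ := by
    apply Submodule.eq_top_of_finrank_eq
    apply le_antisymm (Submodule.finrank_le _)
    have := Submodule.finrank_sup_add_finrank_inf_eq A B
    rw [h, finrank_bot] at this
    omega
  have hx : x ∈ A ⊔ B := by rw [htop]; trivial
  obtain ⟨a, ha, b, hb, rfl⟩ := Submodule.mem_sup.mp hx
  have key : obl A B (a + b) = a := by
    have hb0 : (1 - B.starProjection : W →L[ℝ] W) b = 0 := by
      simp [Submodule.starProjection_eq_self_iff.mpr hb]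
    have ha1 : (1 - B.starProjection : W →L[ℝ] W) a =
        (1 - B.starProjection * A.starProjection : W →L[ℝ] W) a := by
      simp [Submodule.starProjection_eq_self_iff.mpr ha]
    have hc : Ring.inverse (1 - B.starProjection * A.starProjection : W →L[ℝ] W) *
        (1 - B.starProjection * A.starProjection) = 1 := Ring.inverse_mul_cancel _ hu
    have := congrArg (fun T : W →L[ℝ] W => T a) hc
    simp only [ContinuousLinearMap.mul_apply, ContinuousLinearMap.one_apply] at this
    unfold obl
    rw [ContinuousLinearMap.mul_apply, map_add, hb0, add_zero, ha1]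
    exact this
  rw [key]
  exact ⟨ha, by simpa using hb⟩

lemma continuousAt_obl {T : Type*} [TopologicalSpace T] {A B : T → Submodule ℝ W} {t : T}
    (h : A t ⊓ B t = ⊥)
    (hA : ContinuousAt (fun t => ((A t).starProjection : W →L[ℝ] W)) t)
    (hB : ContinuousAt (fun t => ((B t).starProjection : W →L[ℝ] W)) t) :
    ContinuousAt (fun t => obl (A t) (B t)) t := by
  have : CompleteSpace W := FiniteDimensional.complete ℝ W
  have hu := isUnit_one_sub h
  obtain ⟨u, hu⟩ := hu
  have h1 : ContinuousAt (fun t => (1 - (B t).starProjection * (A t).starProjection : W →L[ℝ] W))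
      t := continuousAt_const.sub (hB.mul hA)
  have h2 : ContinuousAt Ring.inverse
      (1 - (B t).starProjection * (A t).starProjection : W →L[ℝ] W) := by
    rw [← hu]; exact NormedRing.inverse_continuousAt u
  exact (ContinuousAt.comp (f := fun t => (1 - (B t).starProjection * (A t).starProjection :
    W →L[ℝ] W)) h2 h1).mul (continuousAt_const.sub hB)

end Oblique

/-! ## Flags -/

section Flags

variable {d : ℕ}

lemma continuous_proj (i : Fin (d + 1)) :
    Continuous (fun F : FullFlag d => ((F.sub i).starProjection :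
      EuclideanSpace ℝ (Fin d) →L[ℝ] EuclideanSpace ℝ (Fin d))) := by
  have h : Continuous (fun (F : FullFlag d) (i : Fin (d + 1)) =>
      ((F.sub i).starProjection :
        EuclideanSpace ℝ (Fin d) →L[ℝ] EuclideanSpace ℝ (Fin d))) := continuous_induced_dom
  exact (continuous_apply i).comp h

lemma sub_le (F : FullFlag d) (i : Fin d) : F.sub i.castSucc ≤ F.sub i.succ :=
  F.mono (Fin.castSucc_lt_succ (i := i)).le

lemma exists_mem_not_mem (F : FullFlag d) (i : Fin d) :
    ∃ w, w ∈ F.sub i.succ ∧ w ∉ F.sub i.castSucc := by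
  by_contra hcon
  push Not at hcon
  have hle : F.sub i.succ ≤ F.sub i.castSucc := hcon
  have := Submodule.finrank_mono hle
  rw [F.finrank_sub, F.finrank_sub] at this
  simp at this

/-- An element of `F^{i+1}` is a multiple of a given element of `F^{i+1} \ F^i`, modulo `F^i`. -/
lemma exists_smul_sub_mem (F : FullFlag d) (i : Fin d) {u y : EuclideanSpace ℝ (Fin d)}
    (hu : u ∈ F.sub i.succ) (hu' : u ∉ F.sub i.castSucc) (hy : y ∈ F.sub i.succ) :
    ∃ c : ℝ, y - c • u ∈ F.sub i.castSucc := by
  have hle : F.sub i.castSucc ⊔ Submodule.span ℝ {u} ≤ F.sub i.succ := by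
    apply sup_le (sub_le F i)
    rw [Submodule.span_singleton_le_iff_mem]; exact hu
  have heq : F.sub i.castSucc ⊔ Submodule.span ℝ {u} = F.sub i.succ := by
    apply Submodule.eq_of_le_of_finrank_le hle
    rw [F.finrank_sub]
    by_contra hlt
    push Not at hlt
    have hle2 : F.sub i.castSucc ≤ F.sub i.castSucc ⊔ Submodule.span ℝ {u} := le_sup_left
    have h3 : F.sub i.castSucc = F.sub i.castSucc ⊔ Submodule.span ℝ {u} := by
      apply Submodule.eq_of_le_of_finrank_le hle2
      rw [F.finrank_sub]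
      simp only [Fin.val_succ, Fin.val_castSucc] at hlt ⊢
      omega
    apply hu'
    rw [h3]
    exact Submodule.mem_sup_right (Submodule.mem_span_singleton_self u)
  rw [← heq] at hy
  obtain ⟨a, ha, b, hb, rfl⟩ := Submodule.mem_sup.mp hy
  obtain ⟨c, rfl⟩ := Submodule.mem_span_singleton.mp hb
  exact ⟨c, by simpa using ha⟩

/-- Vectors `c_i ∈ F^{i+1} \ F^i` are linearly independent. -/
lemma linearIndependent_of_flag (F : FullFlag d) (c : Fin d → EuclideanSpace ℝ (Fin d))
    (h1 : ∀ i, c i ∈ F.sub i.succ) (h2 : ∀ i, c i ∉ F.sub i.castSucc) :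
    LinearIndependent ℝ c := by
  rw [Fintype.linearIndependent_iff]
  intro g hg
  by_contra hcon
  push Not at hcon
  obtain ⟨i0, hi0⟩ := hcon
  obtain ⟨i, hi, hmax⟩ : ∃ i, g i ≠ 0 ∧ ∀ j, g j ≠ 0 → j ≤ i := by
    have hne : (Finset.univ.filter (fun j => g j ≠ 0)).Nonempty := ⟨i0, by simpa using hi0⟩
    refine ⟨(Finset.univ.filter (fun j => g j ≠ 0)).max' hne, ?_, ?_⟩
    · have := Finset.max'_mem _ hne
      simpa using this
    · intro j hj
      exact Finset.le_max' _ _ (by simpa using hj)
  apply h2 i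
  have hsum : g i • c i + ∑ j ∈ Finset.univ.erase i, g j • c j = 0 := by
    rw [Finset.add_sum_erase Finset.univ (fun j => g j • c j) (Finset.mem_univ i)]; exact hg
  have hmem : ∑ j ∈ Finset.univ.erase i, g j • c j ∈ F.sub i.castSucc := by
    apply Submodule.sum_mem
    intro j hj
    by_cases hgj : g j = 0
    · rw [hgj, zero_smul]; exact Submodule.zero_mem _
    · apply Submodule.smul_mem
      have hle := hmax j hgj
      have hne : j ≠ i := (Finset.mem_erase.mp hj).1
      have hlt : j < i := lt_of_le_of_ne hle hne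
      have hle' : j.succ ≤ i.castSucc := by
        rw [Fin.le_def]; simp only [Fin.val_succ, Fin.val_castSucc]; exact hlt
      exact F.mono hle' (h1 j)
  have h5 : g i • c i ∈ F.sub i.castSucc := by
    have : g i • c i = -∑ j ∈ Finset.univ.erase i, g j • c j := eq_neg_of_add_eq_zero_left hsum
    rw [this]; exact Submodule.neg_mem _ hmem
  exact (Submodule.smul_mem_iff _ hi).mp h5

end Flags

/-! ## The core construction -/

section Core

variable {n d : ℕ}

/-- cut-off function. -/
noncomputable def cut (t : ℝ) : ℝ := min 1 (max 0 (2 * t - 1))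

lemma continuous_cut : Continuous cut := by unfold cut; fun_prop

lemma cut_nonneg (t : ℝ) : 0 ≤ cut t := by unfold cut; positivity

lemma cut_le_one (t : ℝ) : cut t ≤ 1 := by unfold cut; exact min_le_left _ _

lemma cut_one : cut 1 = 1 := by unfold cut; norm_num

lemma cut_small {t : ℝ} (h : t ≤ 1 / 2) : cut t = 0 := by
  unfold cut
  rw [max_eq_left (by linarith)]
  norm_num

theorem core (hn : 2 ≤ n) (G : EuclideanSpace ℝ (Fin n) → FullFlag d) (hGc : Continuous G)
    (hGt : ∀ x y, x ≠ y → (G x).Transverse (G y)) (Finf : FullFlag d)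
    (hF : ∀ x, (G x).Transverse Finf) :
    ∃ (s : Fin d → ℝ) (c : EuclideanSpace ℝ (Fin n) → Fin d → EuclideanSpace ℝ (Fin d)),
      (∀ i, s i = 1 ∨ s i = -1) ∧ (∀ i, s i.rev = s i) ∧ (∀ i, Continuous fun x => c x i) ∧
      (∀ x, LinearIndependent ℝ (c x)) ∧
      (∀ x, ‖x‖ = 1 → ∀ i, c (-x) i.rev = s i • c x i) := by
  have hproj : ∀ i, Continuous (fun x => (((G x).sub i).starProjection :
      EuclideanSpace ℝ (Fin d) →L[ℝ] EuclideanSpace ℝ (Fin d))) :=
    fun i => (continuous_proj i).comp hGc
  -- the vectors `w_i`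
  have hw : ∀ i : Fin d, ∃ w, w ∈ Finf.sub i.castSucc.rev ∧ w ∉ Finf.sub i.succ.rev := by
    intro i
    obtain ⟨w, h1, h2⟩ := exists_mem_not_mem Finf i.rev
    exact ⟨w, by rw [Fin.rev_castSucc]; exact h1, by rw [Fin.rev_succ]; exact h2⟩
  choose w hw1 hw2 using hw
  -- the vectors `v_i(x)`
  set v : EuclideanSpace ℝ (Fin n) → Fin d → EuclideanSpace ℝ (Fin d) :=
    fun x i => obl ((G x).sub i.succ) (Finf.sub i.succ.rev) (w i) with hvdef
  have hdim : ∀ (F F' : FullFlag d) (j : Fin (d + 1)),
      finrank ℝ (EuclideanSpace ℝ (Fin d)) ≤ finrank ℝ (F.sub j) + finrank ℝ (F'.sub j.rev) := by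
    intro F F' j
    rw [F.finrank_sub, F'.finrank_sub, finrank_euclideanSpace_fin, Fin.val_rev]
    omega
  have hv : ∀ x i, v x i ∈ (G x).sub i.succ ∧ w i - v x i ∈ Finf.sub i.succ.rev := by
    intro x i
    exact obl_spec (hF x i.succ) (hdim _ _ _) (w i)
  have hv1 : ∀ x i, v x i ∈ (G x).sub i.succ := fun x i => (hv x i).1
  have hv2 : ∀ x i, v x i ∉ (G x).sub i.castSucc := by
    intro x i hmem
    have hle : Finf.sub i.succ.rev ≤ Finf.sub i.castSucc.rev := by
      apply Finf.mono
      rw [Fin.rev_succ, Fin.rev_castSucc]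
      exact (Fin.castSucc_lt_succ (i := i.rev)).le
    have h1 : v x i ∈ Finf.sub i.castSucc.rev := by
      have : v x i = w i - (w i - v x i) := by abel
      rw [this]
      exact Submodule.sub_mem _ (hw1 i) (hle (hv x i).2)
    have h2 : v x i ∈ (G x).sub i.castSucc ⊓ Finf.sub i.castSucc.rev := ⟨hmem, h1⟩
    rw [hF x i.castSucc] at h2
    have h3 : v x i = 0 := (Submodule.mem_bot ℝ).mp h2
    have h4 := (hv x i).2
    rw [h3, sub_zero] at h4
    exact hw2 i h4
  have hvc : ∀ i, Continuous (fun x => v x i) := by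
    intro i
    rw [continuous_iff_continuousAt]
    intro x
    have := continuousAt_obl (A := fun x => (G x).sub i.succ)
      (B := fun _ => Finf.sub i.succ.rev) (t := x) (hF x i.succ)
      (hproj i.succ).continuousAt continuousAt_const
    exact this.clm_apply continuousAt_const
  -- the vectors `u_i(x)`
  set u : EuclideanSpace ℝ (Fin n) → Fin d → EuclideanSpace ℝ (Fin d) :=
    fun x i => obl ((G (-x)).sub i.castSucc.rev) ((G x).sub i.castSucc) (v x i) with hudef
  have htr : ∀ x : EuclideanSpace ℝ (Fin n), x ≠ 0 → ∀ j, (G (-x)).sub j.rev ⊓ (G x).sub j = ⊥ := by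
    intro x hx j
    have hne : -x ≠ x := by
      intro h
      apply hx
      have h2 : (2 : ℝ) • x = 0 := by
        rw [two_smul]
        nth_rewrite 1 [← h]
        simp
      simpa using h2
    have := hGt (-x) x hne j.rev
    rwa [Fin.rev_rev] at this
  have hu : ∀ x, x ≠ 0 → ∀ i, u x i ∈ (G (-x)).sub i.castSucc.rev ∧
      v x i - u x i ∈ (G x).sub i.castSucc := by
    intro x hx i
    refine obl_spec (htr x hx i.castSucc) ?_ (v x i)
    have := hdim (G x) (G (-x)) i.castSucc
    omega
  have huc : ∀ i x, x ≠ 0 → ContinuousAt (fun x => u x i) x := by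
    intro i x hx
    have := continuousAt_obl (A := fun x => (G (-x)).sub i.castSucc.rev)
      (B := fun x => (G x).sub i.castSucc) (t := x) (htr x hx i.castSucc)
      ((hproj i.castSucc.rev).comp continuous_neg).continuousAt
      (hproj i.castSucc).continuousAt
    exact this.clm_apply (hvc i).continuousAt
  have hu1 : ∀ x, x ≠ 0 → ∀ i, u x i ∈ (G x).sub i.succ := by
    intro x hx i
    have : u x i = v x i - (v x i - u x i) := by abel
    rw [this]
    exact Submodule.sub_mem _ (hv1 x i) (sub_le _ _ (hu x hx i).2)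
  have hu2 : ∀ x, x ≠ 0 → ∀ i, u x i ∉ (G x).sub i.castSucc := by
    intro x hx i hmem
    apply hv2 x i
    have : v x i = (v x i - u x i) + u x i := by abel
    rw [this]
    exact Submodule.add_mem _ (hu x hx i).2 hmem
  have hu0 : ∀ x, x ≠ 0 → ∀ i, u x i ≠ 0 := by
    intro x hx i h0
    apply hu2 x hx i
    rw [h0]; exact Submodule.zero_mem _
  -- the ratios `r_i(x)`
  have hex : ∀ x, x ≠ 0 → ∀ i : Fin d, ∃ c : ℝ, u (-x) i.rev = c • u x i := by
    intro x hx i
    have hx' : -x ≠ 0 := neg_ne_zero.mpr hx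
    have h1 : u (-x) i.rev ∈ (G x).sub i.succ := by
      have := (hu (-x) hx' i.rev).1
      rw [neg_neg, Fin.rev_castSucc, Fin.rev_rev] at this
      exact this
    have h2 : u (-x) i.rev ∈ (G (-x)).sub i.castSucc.rev := by
      have := hu1 (-x) hx' i.rev
      rw [Fin.rev_castSucc]; exact this
    obtain ⟨c, hc⟩ := exists_smul_sub_mem (G x) i (hu1 x hx i) (hu2 x hx i) h1
    refine ⟨c, ?_⟩
    have h3 : u (-x) i.rev - c • u x i ∈ (G (-x)).sub i.castSucc.rev :=
      Submodule.sub_mem _ h2 (Submodule.smul_mem _ _ (hu x hx i).1)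
    have h4 : u (-x) i.rev - c • u x i ∈ (G (-x)).sub i.castSucc.rev ⊓ (G x).sub i.castSucc :=
      ⟨h3, hc⟩
    rw [htr x hx i.castSucc] at h4
    exact sub_eq_zero.mp ((Submodule.mem_bot ℝ).mp h4)
  set r : EuclideanSpace ℝ (Fin n) → Fin d → ℝ :=
    fun x i => ⟪u x i, u (-x) i.rev⟫ / ‖u x i‖ ^ 2 with hrdef
  have hr : ∀ x, x ≠ 0 → ∀ i : Fin d, u (-x) i.rev = r x i • u x i := by
    intro x hx i
    obtain ⟨c, hc⟩ := hex x hx i
    have hpos : ‖u x i‖ ^ 2 ≠ 0 := pow_ne_zero _ (norm_ne_zero_iff.mpr (hu0 x hx i))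
    have : r x i = c := by
      simp only [hrdef]
      rw [hc, inner_smul_right, real_inner_self_eq_norm_sq, mul_div_assoc, div_self hpos, mul_one]
    rw [this, hc]
  have hrr : ∀ x, x ≠ 0 → ∀ i : Fin d, r (-x) i.rev * r x i = 1 := by
    intro x hx i
    have hx' : -x ≠ 0 := neg_ne_zero.mpr hx
    have h1 := hr x hx i
    have h2 := hr (-x) hx' i.rev
    rw [neg_neg, Fin.rev_rev, h1, smul_smul] at h2
    have h3 : (r (-x) i.rev * r x i - 1) • u x i = 0 := by
      rw [sub_smul, one_smul, ← h2, sub_self]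
    rcases smul_eq_zero.mp h3 with h4 | h4
    · linarith
    · exact absurd h4 (hu0 x hx i)
  have hr0 : ∀ x, x ≠ 0 → ∀ i : Fin d, r x i ≠ 0 := by
    intro x hx i h0
    have := hrr x hx i
    rw [h0, mul_zero] at this
    exact zero_ne_one this
  have hrc : ∀ i x, x ≠ 0 → ContinuousAt (fun x => r x i) x := by
    intro i x hx
    have hx' : -x ≠ 0 := neg_ne_zero.mpr hx
    have hpos : ‖u x i‖ ^ 2 ≠ 0 := pow_ne_zero _ (norm_ne_zero_iff.mpr (hu0 x hx i))
    have h1 : ContinuousAt (fun x => u (-x) i.rev) x :=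
      ContinuousAt.comp (f := fun x => -x) (g := fun y => u y i.rev) (huc i.rev (-x) hx')
        continuous_neg.continuousAt
    have h2 : ContinuousAt (fun x => ⟪u x i, u (-x) i.rev⟫) x := ContinuousAt.inner (𝕜 := ℝ) (huc i x hx) h1
    exact h2.div ((huc i x hx).norm.pow 2) hpos
  -- the sign of `r_i` is constant
  have hconn : IsConnected ({0}ᶜ : Set (EuclideanSpace ℝ (Fin n))) := by
    apply isConnected_compl_singleton_of_one_lt_rank
    rw [← Module.finrank_eq_rank, finrank_euclideanSpace_fin]
    exact_mod_cast hn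
  obtain ⟨x0, hx0⟩ := hconn.nonempty
  have hx0 : x0 ≠ 0 := hx0
  have hsign : ∀ i x, x ≠ 0 → 0 < r x i * r x0 i := by
    intro i x hx
    have hcont : ContinuousOn (fun x => r x i) ({0}ᶜ : Set (EuclideanSpace ℝ (Fin n))) :=
      fun y hy => (hrc i y hy).continuousWithinAt
    have hpre := hconn.isPreconnected.image _ hcont
    by_contra hcon
    push Not at hcon
    have hne : r x i * r x0 i ≠ 0 := mul_ne_zero (hr0 x hx i) (hr0 x0 hx0 i)
    have hlt : r x i * r x0 i < 0 := lt_of_le_of_ne hcon hne
    have hmem : (0 : ℝ) ∈ (fun x => r x i) '' ({0}ᶜ : Set (EuclideanSpace ℝ (Fin n))) := by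
      have hx1 : r x i ∈ (fun x => r x i) '' ({0}ᶜ : Set (EuclideanSpace ℝ (Fin n))) :=
        ⟨x, hx, rfl⟩
      have hx2 : r x0 i ∈ (fun x => r x i) '' ({0}ᶜ : Set (EuclideanSpace ℝ (Fin n))) :=
        ⟨x0, hx0, rfl⟩
      rcases mul_neg_iff.mp hlt with ⟨ha, hb⟩ | ⟨ha, hb⟩
      · exact hpre.Icc_subset hx2 hx1 ⟨hb.le, ha.le⟩
      · exact hpre.Icc_subset hx1 hx2 ⟨ha.le, hb.le⟩
    obtain ⟨y, hy, hy0⟩ := hmem
    exact hr0 y hy i hy0
  set s : Fin d → ℝ := fun i => if 0 < r x0 i then 1 else -1 with hsdef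
  have hs : ∀ i x, x ≠ 0 → r x i = s i * |r x i| := by
    intro i x hx
    have := hsign i x hx
    by_cases h : 0 < r x0 i
    · have : 0 < r x i := pos_of_mul_pos_left this h.le
      simp only [hsdef, if_pos h, one_mul, abs_of_pos this]
    · have h' : r x0 i < 0 := lt_of_le_of_ne (not_lt.mp h) (hr0 x0 hx0 i)
      have : r x i < 0 := by
        rcases mul_pos_iff.mp this with ⟨_, hb⟩ | ⟨ha, _⟩
        · linarith
        · exact ha
      simp only [hsdef, if_neg h, abs_of_neg this]
      ring
  have hs1 : ∀ i, s i = 1 ∨ s i = -1 := by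
    intro i
    by_cases h : 0 < r x0 i
    · left; simp only [hsdef, if_pos h]
    · right; simp only [hsdef, if_neg h]
  have hs2 : ∀ i, s i.rev = s i := by
    intro i
    have hx0' : -x0 ≠ 0 := neg_ne_zero.mpr hx0
    have h1 := hrr x0 hx0 i
    rw [hs i.rev (-x0) hx0', hs i x0 hx0] at h1
    have h2 : 0 < |r (-x0) i.rev| * |r x0 i| :=
      mul_pos (abs_pos.mpr (hr0 _ hx0' _)) (abs_pos.mpr (hr0 _ hx0 _))
    rcases hs1 i with ha | ha <;> rcases hs1 i.rev with hb | hb <;> rw [ha, hb] at h1 ⊢ <;>
      nlinarith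
  -- the rows
  set c : EuclideanSpace ℝ (Fin n) → Fin d → EuclideanSpace ℝ (Fin d) :=
    fun x i => (1 - cut ‖x‖) • v x i + (cut ‖x‖ * Real.sqrt |r x i|) • u x i with hcdef
  refine ⟨s, c, hs1, hs2, ?_, ?_, ?_⟩
  · intro i
    rw [continuous_iff_continuousAt]
    intro x
    by_cases hx : x = 0
    · subst hx
      have hev : (fun x => c x i) =ᶠ[𝓝 0] fun x => v x i := by
        have : Metric.ball (0 : EuclideanSpace ℝ (Fin n)) (1 / 2) ∈
            𝓝 (0 : EuclideanSpace ℝ (Fin n)) :=
          Metric.ball_mem_nhds _ (by norm_num)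
        filter_upwards [this] with y hy
        have hy' : ‖y‖ ≤ 1 / 2 := by
          rw [Metric.mem_ball, dist_zero_right] at hy; exact hy.le
        simp only [hcdef, cut_small hy']
        simp
      exact ((hvc i).continuousAt).congr hev.symm
    · have h1 : ContinuousAt (fun x : EuclideanSpace ℝ (Fin n) => cut ‖x‖) x :=
        (continuous_cut.comp continuous_norm).continuousAt
      have h2 : ContinuousAt (fun x => Real.sqrt |r x i|) x :=
        Real.continuous_sqrt.continuousAt.comp (hrc i x hx).abs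
      exact ((continuousAt_const.sub h1).smul (hvc i).continuousAt).add
        ((h1.mul h2).smul (huc i x hx))
  · intro x
    apply linearIndependent_of_flag (G x)
    · intro i
      by_cases hx : x = 0
      · subst hx
        simp only [hcdef, norm_zero, cut_small (show (0 : ℝ) ≤ 1 / 2 by norm_num)]
        simpa using hv1 0 i
      · exact Submodule.add_mem _ (Submodule.smul_mem _ _ (hv1 x i))
          (Submodule.smul_mem _ _ (hu1 x hx i))
    · intro i hmem
      by_cases hx : x = 0
      · subst hx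
        simp only [hcdef, norm_zero, cut_small (show (0 : ℝ) ≤ 1 / 2 by norm_num)] at hmem
        apply hv2 0 i
        simpa using hmem
      · set α := (1 - cut ‖x‖) + cut ‖x‖ * Real.sqrt |r x i| with hα
        have hsq : 0 < Real.sqrt |r x i| := Real.sqrt_pos.mpr (abs_pos.mpr (hr0 x hx i))
        have hαpos : 0 < α := by
          have h0 := cut_nonneg ‖x‖
          have h1 := cut_le_one ‖x‖
          rcases eq_or_lt_of_le h1 with h | h
          · rw [hα, h]; simpa using hsq
          · have : 0 ≤ cut ‖x‖ * Real.sqrt |r x i| := mul_nonneg h0 hsq.le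
            rw [hα]; linarith
        have h3 : α • v x i = c x i + (cut ‖x‖ * Real.sqrt |r x i|) • (v x i - u x i) := by
          simp only [hcdef, hα, add_smul, smul_sub]
          abel
        have h4 : α • v x i ∈ (G x).sub i.castSucc := by
          rw [h3]
          exact Submodule.add_mem _ hmem (Submodule.smul_mem _ _ (hu x hx i).2)
        exact hv2 x i ((Submodule.smul_mem_iff _ hαpos.ne').mp h4)
  · intro x hxn i
    have hx : x ≠ 0 := by
      rintro rfl
      rw [norm_zero] at hxn
      exact zero_ne_one hxn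
    have hx' : -x ≠ 0 := neg_ne_zero.mpr hx
    simp only [hcdef, norm_neg, hxn, cut_one, sub_self, zero_smul, zero_add, one_mul]
    rw [hr x hx i, smul_smul, smul_smul]
    congr 1
    have h1 := hrr x hx i
    have ha : 0 < |r x i| := abs_pos.mpr (hr0 x hx i)
    have h2 : |r (-x) i.rev| = |r x i|⁻¹ := by
      have : |r (-x) i.rev| * |r x i| = 1 := by rw [← abs_mul, h1, abs_one]
      field_simp
      linarith
    rw [h2, Real.sqrt_inv]
    have hsq : Real.sqrt |r x i| ≠ 0 := (Real.sqrt_pos.mpr ha).ne'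
    have h3 : |r x i| = Real.sqrt |r x i| * Real.sqrt |r x i| := (Real.mul_self_sqrt ha.le).symm
    rw [hs i x hx, abs_mul, abs_abs]
    have h4 : |s i| = 1 := by rcases hs1 i with h | h <;> rw [h] <;> simp
    rw [h4, one_mul]
    nth_rewrite 2 [h3]
    field_simp

end Core

/-! ## Assembly -/

section Assembly

variable {n d : ℕ}

/-- The signed antidiagonal matrix. -/
def antiW (s : Fin d → ℝ) : Matrix (Fin d) (Fin d) ℝ := fun i j => if j = i.rev then s j else 0

lemma antiW_mul (s : Fin d → ℝ) (M : Matrix (Fin d) (Fin d) ℝ) (i k : Fin d) :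
    (antiW s * M) i k = s i.rev * M i.rev k := by
  simp [Matrix.mul_apply, antiW]

lemma antiW_transpose {s : Fin d → ℝ} (hs : ∀ i, s i.rev = s i) :
    (antiW s).transpose = antiW s := by
  ext i j
  simp only [Matrix.transpose_apply, antiW]
  by_cases h : i = j.rev
  · have h' : j = i.rev := by rw [h, Fin.rev_rev]
    rw [if_pos h, if_pos h', h, hs]
  · have h' : ¬ j = i.rev := fun h' => h (by rw [h', Fin.rev_rev])
    rw [if_neg h, if_neg h']

lemma antiW_sq {s : Fin d → ℝ} (hs1 : ∀ i, s i = 1 ∨ s i = -1) (hs : ∀ i, s i.rev = s i) :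
    antiW s * antiW s = 1 := by
  ext i k
  rw [antiW_mul]
  simp only [antiW, Fin.rev_rev]
  by_cases h : k = i
  · subst h
    rw [if_pos rfl, Matrix.one_apply_eq, hs]
    rcases hs1 k with h | h <;> rw [h] <;> norm_num
  · rw [if_neg h, Matrix.one_apply_ne (Ne.symm h), mul_zero]

lemma antiW_trace {s : Fin d → ℝ} (hs1 : ∀ i, s i = 1 ∨ s i = -1) :
    ∃ k : ℕ, (antiW s).trace = (d : ℝ) - 2 * k ∧ (d = 2 * k ∨ d + 1 = 2 * k ∨ d = 2 * k + 1) := by
  have htr : (antiW s).trace = ∑ i : Fin d, if i = i.rev then s i else 0 := rfl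
  rcases Nat.even_or_odd' d with ⟨m, hm | hm⟩
  · refine ⟨m, ?_, Or.inl hm⟩
    rw [htr, Finset.sum_eq_zero]
    · rw [hm]; push_cast; ring
    · intro i _
      rw [if_neg]
      intro h
      have := congrArg Fin.val h
      rw [Fin.val_rev] at this
      omega
  · have hlt : m < d := by omega
    have hsum : (∑ i : Fin d, if i = i.rev then s i else 0) = s ⟨m, hlt⟩ := by
      rw [Finset.sum_eq_single (⟨m, hlt⟩ : Fin d)]
      · rw [if_pos]
        ext
        rw [Fin.val_rev]
        simp only
        omega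
      · intro i _ hi
        rw [if_neg]
        intro h
        apply hi
        have := congrArg Fin.val h
        rw [Fin.val_rev] at this
        ext
        simp only
        omega
      · intro h; exact absurd (Finset.mem_univ _) h
    rcases hs1 ⟨m, hlt⟩ with h | h
    · refine ⟨m, ?_, Or.inr (Or.inr hm)⟩
      rw [htr, hsum, h, hm]; push_cast; ring
    · refine ⟨m + 1, ?_, Or.inr (Or.inl (by omega))⟩
      rw [htr, hsum, h, hm]; push_cast; ring

theorem exists_equivariant_of_transverseSphere (hn : 2 ≤ n) (_hd : 2 ≤ d)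
    (h : HasTransverseSphere n d) :
    ∃ (w : Matrix (Fin d) (Fin d) ℝ)
      (Φ : Metric.sphere (0 : EuclideanSpace ℝ (Fin (n + 1))) 1 → Matrix (Fin d) (Fin d) ℝ)
      (k : ℕ), w.transpose = w ∧ w * w = 1 ∧ w.trace = (d : ℝ) - 2 * k ∧
      (d = 2 * k ∨ d + 1 = 2 * k ∨ d = 2 * k + 1) ∧ Continuous Φ ∧
      (∀ y, (Φ y).det ≠ 0) ∧ ∀ y, Φ (-y) = w * Φ y := by
  obtain ⟨S, hS, ⟨e⟩⟩ := h
  have hfact : Fact (Module.finrank ℝ (EuclideanSpace ℝ (Fin (n + 1))) = n + 1) :=
    ⟨finrank_euclideanSpace_fin⟩
  let v0 : Metric.sphere (0 : EuclideanSpace ℝ (Fin (n + 1))) 1 :=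
    ⟨EuclideanSpace.single (Fin.last n) 1, by simp⟩
  let φ := stereographic' n v0
  have htgt : φ.target = Set.univ := stereographic'_target v0
  have hsrc : φ.source = {v0}ᶜ := stereographic'_source v0
  have hφc : Continuous φ.symm := by
    rw [← continuousOn_univ, ← htgt]
    exact φ.continuousOn_symm
  have hφinj : Function.Injective φ.symm := by
    intro x y hxy
    have hx : x ∈ φ.target := by rw [htgt]; trivial
    have hy : y ∈ φ.target := by rw [htgt]; trivial
    rw [← φ.right_inv hx, ← φ.right_inv hy, hxy]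
  have hφne : ∀ x, φ.symm x ≠ v0 := by
    intro x hx
    have hx' : x ∈ φ.target := by rw [htgt]; trivial
    have := φ.map_target hx'
    rw [hsrc] at this
    exact this hx
  let G : EuclideanSpace ℝ (Fin n) → FullFlag d := fun x => (e.symm (φ.symm x)).val
  have hGc : Continuous G := continuous_subtype_val.comp (e.symm.continuous.comp hφc)
  have hGt : ∀ x y, x ≠ y → (G x).Transverse (G y) := by
    intro x y hxy
    apply hS (e.symm (φ.symm x)).2 (e.symm (φ.symm y)).2
    intro h
    exact hxy (hφinj (e.symm.injective (Subtype.ext h)))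
  have hF : ∀ x, (G x).Transverse (e.symm v0).val := by
    intro x
    apply hS (e.symm (φ.symm x)).2 (e.symm v0).2
    intro h
    exact hφne x (e.symm.injective (Subtype.ext h))
  obtain ⟨s, c, hs1, hs2, hcc, hli, heq⟩ := core hn G hGc hGt _ hF
  obtain ⟨k, hk1, hk2⟩ := antiW_trace hs1
  let M : EuclideanSpace ℝ (Fin n) → Matrix (Fin d) (Fin d) ℝ := fun x i j => c x i j
  have hMc : Continuous M := by
    apply continuous_pi; intro i
    apply continuous_pi; intro j
    exact ((EuclideanSpace.proj (𝕜 := ℝ) j).continuous).comp (hcc i)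
  have hMdet : ∀ x, (M x).det ≠ 0 := by
    intro x
    have h1 : LinearIndependent ℝ (M x).row := by
      have := (hli x).map' (WithLp.linearEquiv 2 ℝ (Fin d → ℝ)).toLinearMap
        (LinearEquiv.ker _)
      exact this
    have h2 := Matrix.linearIndependent_rows_iff_isUnit.mp h1
    exact ((Matrix.isUnit_iff_isUnit_det _).mp h2).ne_zero
  have hMeq : ∀ x, ‖x‖ = 1 → M (-x) = antiW s * M x := by
    intro x hx
    ext i j
    rw [antiW_mul]
    have := heq x hx i.rev
    rw [Fin.rev_rev] at this
    have h2 := congrArg (fun z : EuclideanSpace ℝ (Fin d) => z j) this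
    simpa [M] using h2
  have hwdet : (antiW s).det ≠ 0 := by
    intro h0
    have := congrArg Matrix.det (antiW_sq hs1 hs2)
    rw [Matrix.det_mul, h0, Matrix.det_one] at this
    norm_num at this
  -- projection to the first `n` coordinates
  let pr : Metric.sphere (0 : EuclideanSpace ℝ (Fin (n + 1))) 1 → EuclideanSpace ℝ (Fin n) :=
    fun y => WithLp.toLp 2 (fun i : Fin n => (y : EuclideanSpace ℝ (Fin (n + 1))) i.castSucc)
  let lst : Metric.sphere (0 : EuclideanSpace ℝ (Fin (n + 1))) 1 → ℝ :=
    fun y => (y : EuclideanSpace ℝ (Fin (n + 1))) (Fin.last n)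
  have hco : ∀ i : Fin (n + 1), Continuous (fun y : Metric.sphere (0 : EuclideanSpace ℝ
      (Fin (n + 1))) 1 => (y : EuclideanSpace ℝ (Fin (n + 1))) i) := fun i =>
    ((EuclideanSpace.proj (𝕜 := ℝ) i).continuous).comp continuous_subtype_val
  have hprc : Continuous pr := by
    apply (PiLp.continuous_toLp 2 _).comp
    exact continuous_pi fun i => hco i.castSucc
  have hlstc : Continuous lst := hco _
  have hprneg : ∀ y, pr (-y) = -pr y := by
    intro y
    ext i
    simp [pr]
  have hlstneg : ∀ y, lst (-y) = -lst y := by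
    intro y
    simp [lst]
  have hnorm : ∀ y, lst y = 0 → ‖pr y‖ = 1 := by
    intro y hy
    have h1 : ‖(y : EuclideanSpace ℝ (Fin (n + 1)))‖ = 1 := by
      have := y.2
      rwa [mem_sphere_zero_iff_norm] at this
    have h2 : ‖pr y‖ ^ 2 = 1 := by
      have h3 : ‖(y : EuclideanSpace ℝ (Fin (n + 1)))‖ ^ 2 = 1 := by rw [h1]; norm_num
      rw [EuclideanSpace.norm_sq_eq, Fin.sum_univ_castSucc] at h3
      rw [EuclideanSpace.norm_sq_eq]
      have h4 : (y : EuclideanSpace ℝ (Fin (n + 1))) (Fin.last n) = 0 := hy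
      rw [h4] at h3
      simpa [pr] using h3
    have h5 : 0 ≤ ‖pr y‖ := norm_nonneg _
    nlinarith
  refine ⟨antiW s, fun y => if 0 ≤ lst y then M (pr y) else antiW s * M (-pr y), k,
    antiW_transpose hs2, antiW_sq hs1 hs2, hk1, hk2, ?_, ?_, ?_⟩
  · apply Continuous.if_le (hMc.comp hprc) _ continuous_const hlstc
    · intro y hy
      have h1 := hMeq (pr y) (hnorm y hy.symm)
      rw [h1, ← mul_assoc, antiW_sq hs1 hs2, one_mul]
      rfl
    · exact continuous_const.matrix_mul (hMc.comp hprc.neg)
  · intro y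
    by_cases h : 0 ≤ lst y
    · simp only [if_pos h]; exact hMdet _
    · simp only [if_neg h]
      rw [Matrix.det_mul]
      exact mul_ne_zero hwdet (hMdet _)
  · intro y
    simp only [hlstneg, hprneg, neg_neg]
    rcases lt_trichotomy (lst y) 0 with h | h | h
    · rw [if_pos (by linarith), if_neg (by linarith), ← mul_assoc, antiW_sq hs1 hs2, one_mul]
    · rw [if_pos (by linarith), if_pos (by linarith)]
      exact hMeq _ (hnorm y h)
    · rw [if_neg (by linarith), if_pos (by linarith)]

end Assembly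

end Pool.Agent.Helper4.FlagSphere
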